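import Pool.Agent.H1.EssA

namespace Pool.Agent.Results.MP_677f70_an.Yes

open InnerProductSpace

/-- For every `n ≥ 2` there is a domain `D ⊆ ℝⁿ` on which `|x|` has a harmonic majorant while
`|x₁| log⁺ |x₁|` has none. -/
theorem result (n : ℕ) (hn : 2 ≤ n) : ∃ D : Set (EuclideanSpace ℝ (Fin n)),
    IsOpen D ∧ IsConnected D ∧
    (∃ h : EuclideanSpace ℝ (Fin n) → ℝ, HarmonicOnNhd h D ∧ ∀ x ∈ D, ‖x‖ ≤ h x) ∧
    ¬ ∃ H : EuclideanSpace ℝ (Fin n) → ℝ, HarmonicOnNhd H D ∧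
      ∀ x ∈ D, |x ⟨0, by omega⟩| * max 0 (Real.log |x ⟨0, by omega⟩|) ≤ H x :=
  Pool.Agent.H1.Ess.main hn

end Pool.Agent.Results.MP_677f70_an.Yes
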